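import Pool.Agent.W245.HF.ZetaGrow
import Pool.Agent.H340R2.LW

set_option autoImplicit false

/-!
# Polynomials in pi and odd zeta values

There is an absolute constant `c > 0` such that for all `s` and `D ≥ 1` the values at
`π, ζ(3), ζ(5), ..., ζ(2s+1)` of the polynomials with rational coefficients of degree at most `D`
form a space over `ℚ` of dimension at least `c (D + 1) log (s + 1)`; the same holds, with the same
constant, when `π` is replaced by any transcendental number.
-/

namespace Pool.Agent.Results.MP_a89d6d_nt.DegreeGrowth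

open Pool.Agent.W245.HF

theorem result : ∃ c : ℝ, 0 < c ∧ ∀ t : ℂ, (t = (Real.pi : ℂ) ∨ Transcendental ℚ t) →
    ∀ s D : ℕ, 1 ≤ D →
      c * ((D : ℝ) + 1) * Real.log ((s : ℝ) + 1) ≤
        (Module.finrank ℚ (Submodule.span ℚ {z : ℂ | ∃ P : MvPolynomial (Option (Fin s)) ℚ,
          P.totalDegree ≤ D ∧
          z = MvPolynomial.aeval
            (fun o : Option (Fin s) => o.elim t fun j => riemannZeta (2 * ((j : ℕ) : ℂ) + 3)) P}) : ℝ) := by
  obtain ⟨c, hc, h⟩ := zeta_grow
  refine ⟨c, hc, fun t ht s D hD => ?_⟩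
  have ht' : Transcendental ℚ t := by
    rcases ht with rfl | ht
    · exact Pool.Agent.H340R2.LW.transcendental_pi_complex
    · exact ht
  have h1 := h t ht' s D hD
  have h2 : Submodule.span ℚ {z : ℂ | ∃ P : MvPolynomial (Option (Fin s)) ℚ,
      P.totalDegree ≤ D ∧
      z = MvPolynomial.aeval
        (fun o : Option (Fin s) => o.elim t fun j => riemannZeta (2 * ((j : ℕ) : ℂ) + 3)) P} = Va (pt t s) D := by
    have h3 : (fun o : Option (Fin s) => o.elim t fun j => riemannZeta (2 * ((j : ℕ) : ℂ) + 3)) = pt t s := by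
      funext o
      cases o <;> rfl
    rw [h3]
    have h4 : {z : ℂ | ∃ P : MvPolynomial (Option (Fin s)) ℚ, P.totalDegree ≤ D ∧
        z = MvPolynomial.aeval (pt t s) P} = (Va (pt t s) D : Set ℂ) := by
      ext z
      rw [SetLike.mem_coe, mem_Va]
      exact ⟨fun ⟨P, hP, hz⟩ => ⟨P, hP, hz.symm⟩, fun ⟨P, hP, hz⟩ => ⟨P, hP, hz.symm⟩⟩
    rw [h4, Submodule.span_eq]
  rw [h2]
  exact h1

end Pool.Agent.Results.MP_a89d6d_nt.DegreeGrowth
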