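import Mathlib
import Pool.Agent.W245.BR.Lin3
import Pool.Agent.W245.BR.Zdim

set_option autoImplicit false

/-!
# Generic rational combinations of odd zeta values satisfy no polynomial relation of bounded degree
-/

namespace Pool.Agent.Results.MP_a89d6d_nt.GenericCombinations

open Module MvPolynomial Pool.Agent.W245.BR

/-- There is `C > 0` such that for all `k, D, N`, all `ℚ`-subspaces `W` of `ℂ` of dimension `≤ N`
(for instance the span of `1, π, …, π ^ (N-1)`) and all `s` with `C N (D+1)^k ≤ log (s+1)`: for all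
rational matrices `m` outside a hypersurface `F = 0` of degree at most `N (D+1)^k k D`, the `k`
numbers `x i = ∑_{j < s} m i j ζ(2j+3)` satisfy no nonzero polynomial relation of degree at most `D`
in each variable with coefficients in `W`. -/
theorem result : ∃ C : ℝ, 0 < C ∧ ∀ (k D N s : ℕ) (W : Submodule ℚ ℂ), Module.Finite ℚ W →
    finrank ℚ W ≤ N → C * ((N : ℝ) * ((D : ℝ) + 1) ^ k) ≤ Real.log ((s : ℝ) + 1) →
    ∃ F : MvPolynomial (Fin k × Fin s) ℚ, F ≠ 0 ∧ F.totalDegree ≤ N * (D + 1) ^ k * (k * D) ∧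
      ∀ m : Fin k → Fin s → ℚ, eval (fun p => m p.1 p.2) F ≠ 0 →
        ∀ Q : MvPolynomial (Fin k) ℂ, (∀ i, Q.degreeOf i ≤ D) → (∀ e, Q.coeff e ∈ W) →
          eval (fun i => ∑ j : Fin s, (m i j : ℂ) * riemannZeta (2 * ((j : ℕ) : ℂ) + 3)) Q = 0 →
          Q = 0 := by
  obtain ⟨c, hc, h⟩ := zeta_dim
  refine ⟨2 / c, by positivity, fun k D N s W hW hN hs => ?_⟩
  have hdim : N * (D + 1) ^ k ≤ finrank ℚ (Submodule.span ℚ (Set.range fun j : Fin s => oz j)) := by
    rcases Nat.eq_zero_or_pos (N * (D + 1) ^ k) with h0 | h0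
    · rw [h0]; exact Nat.zero_le _
    · have h1 : (2 : ℝ) * ((N * (D + 1) ^ k : ℕ) : ℝ) ≤ c * Real.log ((s : ℝ) + 1) := by
        have h2 := mul_le_mul_of_nonneg_left hs hc.le
        have h3 : c * (2 / c * ((N : ℝ) * ((D : ℝ) + 1) ^ k)) = 2 * ((N * (D + 1) ^ k : ℕ) : ℝ) := by
          push_cast
          field_simp
        rwa [h3] at h2
      have h4 := h1.trans (h s)
      have h5 : (1 : ℝ) ≤ ((N * (D + 1) ^ k : ℕ) : ℝ) := by exact_mod_cast h0
      have h6 : ((N * (D + 1) ^ k : ℕ) : ℝ) ≤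
          (finrank ℚ (Submodule.span ℚ (Set.range fun j : Fin s => oz j)) : ℝ) := by linarith
      exact_mod_cast h6
  obtain ⟨F, h0, h1, h2⟩ := lin_generic (κ := ℚ) (K := ℂ) (fun j : Fin s => oz j) k D N W hW hN hdim
  refine ⟨F, h0, h1, fun m hm Q hQ1 hQ2 hQ3 => h2 m hm Q hQ1 hQ2 ?_⟩
  rw [← hQ3]
  rfl

end Pool.Agent.Results.MP_a89d6d_nt.GenericCombinations
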