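import Mathlib
import Pool.Agent.W339.ZC.Fin

set_option autoImplicit false

namespace Pool.Agent.Results.MP_a89d6d_nt.HurwitzJets

/-- **Fixed rational combinations of consecutive zeta values.**  Let `a_0, …, a_s` be rational numbers, not all
zero. For every `j0 ≥ 3` with `j0 + s` odd and `j0 + s ≥ 5` there is an integer `j` of the parity of `j0` with
`j0 ≤ j ≤ (21 j0 + 17 s - 42) / 4` such that `∑_{l ≤ s} a_l C(j+l-1, l) ζ(j+l)` is irrational.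

(If `j0 + s` is even, use `s + 1` and `a_{s+1} = 0`.) With `P = ∑ a_l (-X)^l / l!` this number is
`P(d/dx) ζ(j, x)` at `x = 1`, where `ζ(j, x)` is the Hurwitz zeta function. -/
theorem result (s j0 : ℕ) (h3 : 3 ≤ j0) (hpar : Odd (j0 + s)) (h5 : 5 ≤ j0 + s) (a : ℕ → ℚ)
    (ha : ∃ l, l ≤ s ∧ a l ≠ 0) :
    ∃ j : ℕ, j % 2 = j0 % 2 ∧ j0 ≤ j ∧ 4 * j + 42 ≤ 21 * j0 + 17 * s ∧
      Irrational (∑ l ∈ Finset.range (s + 1),
        (a l : ℝ) * (Nat.choose (j + l - 1) l : ℝ) * ∑' n : ℕ, 1 / ((n : ℝ) + 1) ^ (j + l)) :=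
  Pool.Agent.W339.ZC.main s j0 h3 hpar h5 a ha

end Pool.Agent.Results.MP_a89d6d_nt.HurwitzJets
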