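import Pool.Agent.W165.OZ.Fin2

set_option autoImplicit false

namespace Pool.Agent.Results.MP_a89d6d_nt.OutsideNumberFields

/-- **Odd zeta values outside number fields.** There are `c > 0` and `s₀` such that for every `s ≥ s₀` and every
number field `K ⊆ ℝ` of degree `D ≤ c log log s`, at least `c √(s log log s / (D log s))` of the odd `i`,
`3 ≤ i ≤ s`, have `ζ(i) = ∑ 1/(n+1)^i ∉ K`. -/
theorem result : ∃ c : ℝ, 0 < c ∧ ∃ s0 : ℕ, ∀ s ≥ s0, ∀ K : IntermediateField ℚ ℝ, FiniteDimensional ℚ K →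
    (Module.finrank ℚ K : ℝ) ≤ c * Real.log (Real.log s) →
    c * Real.sqrt (s * Real.log (Real.log s) / (Module.finrank ℚ K * Real.log s)) ≤
      (Set.ncard {i : ℕ | 3 ≤ i ∧ i ≤ s ∧ Odd i ∧ (∑' n : ℕ, 1 / ((n : ℝ) + 1) ^ i) ∉ K} : ℝ) :=
  Pool.Agent.W165.OZ.z_final2

end Pool.Agent.Results.MP_a89d6d_nt.OutsideNumberFields
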